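import Mathlib

set_option autoImplicit false

/-!
Linear forms in `G n = 4 n! lam n / pi ^ n`, `n` odd, with integer coefficients (helper89).
-/

namespace Pool.Agent.Work.MP_f1a024_nt.OddG

open Real Polynomial MeasureTheory Finset Filter Topology

/-- `lam n = 1 + 3^(-n) + 5^(-n) + ...`. -/
noncomputable def lam (n : ℕ) : ℝ := ∑' i : ℕ, 1 / (2 * (i : ℝ) + 1) ^ n

/-- `G n = 4 n! lam n / pi ^ n`. -/
noncomputable def G (n : ℕ) : ℝ := 4 * (n.factorial : ℝ) * lam n / π ^ n

lemma parts2 (P : ℝ[X]) (l : ℝ) (hl : l ≠ 0) (hs : sin l = 0) (hc : cos l = -1) :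
    ∫ s in (0:ℝ)..1, P.eval s * sin (l * s) =
      (P.eval 0 + P.eval 1) / l - (1 / l ^ 2) *
        ∫ s in (0:ℝ)..1, (derivative (derivative P)).eval s * sin (l * s) := by
  have c1 := P.continuous
  have c2 := (derivative (derivative P)).continuous
  have hF : ∀ s ∈ Set.uIcc (0:ℝ) 1, HasDerivAt
      (fun s => (-P.eval s) * cos (l * s) / l + (derivative P).eval s * sin (l * s) / l ^ 2)
      (P.eval s * sin (l * s) + (1 / l ^ 2) * ((derivative (derivative P)).eval s * sin (l * s)))
      s := by
    intro s _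
    have h1 := P.hasDerivAt s
    have h2 := (derivative P).hasDerivAt s
    have h3 : HasDerivAt (fun s => l * s) l s := by simpa using (hasDerivAt_id s).const_mul l
    have h4 := h3.cos
    have h5 := h3.sin
    have h6 := ((h1.neg.mul h4).div_const l).add ((h2.mul h5).div_const (l ^ 2))
    have e6 : (P.eval s * sin (l * s) + (1 / l ^ 2) * ((derivative (derivative P)).eval s *
        sin (l * s))) = (-(derivative P).eval s * cos (l * s) + -P.eval s *
        (-sin (l * s) * l)) / l + ((derivative (derivative P)).eval s * sin (l * s) +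
        (derivative P).eval s * (cos (l * s) * l)) / l ^ 2 := by
      field_simp
      ring
    rw [e6]
    exact h6
  have hint := intervalIntegral.integral_eq_sub_of_hasDerivAt hF
    (by apply Continuous.intervalIntegrable; fun_prop)
  rw [intervalIntegral.integral_add (by apply Continuous.intervalIntegrable; fun_prop)
    (by apply Continuous.intervalIntegrable; fun_prop),
    intervalIntegral.integral_const_mul] at hint
  simp only [mul_one, mul_zero, sin_zero, cos_zero, hs, hc] at hint
  have : ∫ s in (0:ℝ)..1, P.eval s * sin (l * s) = (-eval 1 P * -1 / l + 0 / l ^ 2 -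
      (-eval 0 P / l + 0 / l ^ 2)) - (1 / l ^ 2) *
        ∫ s in (0:ℝ)..1, (derivative (derivative P)).eval s * sin (l * s) := by
    linarith
  rw [this]
  ring

lemma J_formula (l : ℝ) (hl : l ≠ 0) (hs : sin l = 0) (hc : cos l = -1) (N : ℕ) :
    ∀ P : ℝ[X], derivative^[2 * N] P = 0 →
    ∫ s in (0:ℝ)..1, P.eval s * sin (l * s) = ∑ i ∈ range N, (-1) ^ i *
      ((derivative^[2 * i] P).eval 0 + (derivative^[2 * i] P).eval 1) / l ^ (2 * i + 1) := by
  induction N with
  | zero =>
    intro P hP
    simp only [mul_zero, Function.iterate_zero, id_eq] at hP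
    simp [hP]
  | succ N ih =>
    intro P hP
    have hP' : derivative^[2 * N] (derivative (derivative P)) = 0 := by
      rw [← hP, show 2 * (N + 1) = 2 * N + 2 by ring, Function.iterate_add]
      rfl
    rw [parts2 P l hl hs hc, ih _ hP', Finset.sum_range_succ', Finset.mul_sum]
    have e : ∀ i ∈ range N, (1 / l ^ 2) * ((-1) ^ i *
        ((derivative^[2 * i] (derivative (derivative P))).eval 0 +
          (derivative^[2 * i] (derivative (derivative P))).eval 1) / l ^ (2 * i + 1)) =
        - ((-1) ^ (i + 1) * ((derivative^[2 * (i + 1)] P).eval 0 +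
          (derivative^[2 * (i + 1)] P).eval 1) / l ^ (2 * (i + 1) + 1)) := by
      intro i _
      have : derivative^[2 * (i + 1)] P = derivative^[2 * i] (derivative (derivative P)) := by
        rw [show 2 * (i + 1) = 2 * i + 2 by ring, Function.iterate_add]
        rfl
      rw [this]
      field_simp
      ring
    rw [Finset.sum_congr rfl e, Finset.sum_neg_distrib]
    simp
    ring

lemma eval_zero_iter (P : ℝ[X]) (k : ℕ) :
    (derivative^[k] P).eval 0 = (k.factorial : ℝ) * P.coeff k := by
  rw [← coeff_zero_eq_eval_zero, coeff_iterate_derivative]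
  simp [Nat.descFactorial_self]

lemma J_sym (l : ℝ) (hl : l ≠ 0) (hs : sin l = 0) (hc : cos l = -1) (N : ℕ) (P : ℝ[X])
    (hN : derivative^[2 * N] P = 0) (hsym : P.comp (1 - X) = P) :
    ∫ s in (0:ℝ)..1, P.eval s * sin (l * s) = ∑ i ∈ range N, (-1) ^ i *
      (2 * ((2 * i).factorial : ℝ) * P.coeff (2 * i)) / l ^ (2 * i + 1) := by
  rw [J_formula l hl hs hc N P hN]
  apply Finset.sum_congr rfl
  intro i _
  have h1 : (derivative^[2 * i] P).eval 1 = (derivative^[2 * i] P).eval 0 := by
    have h := iterate_derivative_comp_one_sub_X P (2 * i)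
    rw [hsym] at h
    have h2 := congrArg (eval 0) h
    simp only [eval_mul, eval_comp, eval_sub, eval_one, eval_X, sub_zero, eval_pow, eval_neg] at h2
    rw [h2]
    simp
  rw [h1, eval_zero_iter]
  ring

lemma sin_odd (k : ℕ) : sin ((2 * (k : ℝ) + 1) * π) = 0 := by
  have := Real.sin_nat_mul_pi (2 * k + 1)
  push_cast at this
  exact this

lemma cos_odd (k : ℕ) : cos ((2 * (k : ℝ) + 1) * π) = -1 := by
  have := Real.cos_nat_mul_two_pi_add_pi k
  rw [← this]
  congr 1
  ring

lemma kernel (s : ℝ) (K : ℕ) :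
    (∑ k ∈ range K, 2 * sin ((2 * (k : ℝ) + 1) * π * s)) * sin (π * s) =
      1 - cos (2 * π * (K : ℝ) * s) := by
  induction K with
  | zero => simp
  | succ K ih =>
    rw [Finset.sum_range_succ, add_mul, ih]
    have e1 : cos (2 * π * ((K + 1 : ℕ) : ℝ) * s) =
        cos ((2 * (K : ℝ) + 1) * π * s + π * s) := by
      congr 1; push_cast; ring
    have e2 : cos (2 * π * (K : ℝ) * s) = cos ((2 * (K : ℝ) + 1) * π * s - π * s) := by
      congr 1; ring
    rw [e1, e2, cos_add, cos_sub]
    ring

lemma summable_odd (n : ℕ) (hn : 2 ≤ n) : Summable (fun i : ℕ => 1 / (2 * (i : ℝ) + 1) ^ n) := by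
  have h := (Real.summable_one_div_nat_pow (p := n)).mpr (by omega)
  have h2 := h.comp_injective (i := fun i : ℕ => 2 * i + 1) (fun a b hab => by
    simp only at hab; omega)
  refine h2.congr ?_
  intro i
  simp only [Function.comp]
  push_cast
  rfl

/-- The linear form attached to a symmetric polynomial, as a sum over odd frequencies. -/
lemma hasSum_J (N : ℕ) (P : ℝ[X]) (hN : derivative^[2 * N] P = 0) (hsym : P.comp (1 - X) = P)
    (h0 : P.coeff 0 = 0) :
    HasSum (fun k : ℕ => 2 * ∫ s in (0:ℝ)..1, P.eval s * sin ((2 * (k : ℝ) + 1) * π * s))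
      (∑ i ∈ range N, (-1) ^ i * P.coeff (2 * i) / (2 * (i : ℝ) + 1) * G (2 * i + 1)) := by
  have e : (fun k : ℕ => 2 * ∫ s in (0:ℝ)..1, P.eval s * sin ((2 * (k : ℝ) + 1) * π * s)) =
      fun k : ℕ => ∑ i ∈ range N, ((-1) ^ i * (4 * ((2 * i).factorial : ℝ) * P.coeff (2 * i)) /
        π ^ (2 * i + 1)) * (1 / (2 * (k : ℝ) + 1) ^ (2 * i + 1)) := by
    funext k
    have hk : (2 * (k : ℝ) + 1) ≠ 0 := by positivity
    rw [J_sym _ (mul_ne_zero hk pi_ne_zero) (sin_odd k) (cos_odd k) N P hN hsym, Finset.mul_sum]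
    apply Finset.sum_congr rfl
    intro i _
    rw [mul_pow]
    have := pi_ne_zero
    field_simp
    ring
  rw [e]
  apply hasSum_sum
  intro i _
  rcases Nat.eq_zero_or_pos i with hi | hi
  · subst hi
    simp [h0, hasSum_zero]
  · have hs := (summable_odd (2 * i + 1) (by omega)).hasSum.mul_left
      ((-1) ^ i * (4 * ((2 * i).factorial : ℝ) * P.coeff (2 * i)) / π ^ (2 * i + 1))
    have e7 : (-1) ^ i * P.coeff (2 * i) / (2 * (i : ℝ) + 1) * G (2 * i + 1) =
        ((-1) ^ i * (4 * ((2 * i).factorial : ℝ) * P.coeff (2 * i)) / π ^ (2 * i + 1)) *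
        ∑' k : ℕ, 1 / (2 * (k : ℝ) + 1) ^ (2 * i + 1) := by
      unfold G lam
      rw [show (2 * i + 1).factorial = (2 * i + 1) * (2 * i).factorial from Nat.factorial_succ _]
      push_cast
      have h1 : (2 * (i : ℝ) + 1) ≠ 0 := by positivity
      have := pi_ne_zero
      field_simp
    rw [e7]
    exact hs

/-- Riemann-Lebesgue on the unit interval. -/
lemma riemann_lebesgue (h : ℝ → ℝ) (hint : IntegrableOn h (Set.Ioc 0 1)) :
    Tendsto (fun K : ℕ => ∫ s in (0:ℝ)..1, h s * cos (2 * π * (K : ℝ) * s)) atTop (𝓝 0) := by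
  have h1 := Real.tendsto_integral_exp_smul_cocompact
    (fun s : ℝ => (((Set.Ioc (0:ℝ) 1).indicator h s : ℝ) : ℂ))
  have h2 : Tendsto (fun K : ℕ => (K : ℝ)) atTop (cocompact ℝ) := by
    rw [cocompact_eq_atBot_atTop]
    exact tendsto_natCast_atTop_atTop.mono_right le_sup_right
  have h3 := (Complex.continuous_re.tendsto 0).comp (h1.comp h2)
  simp only [Complex.zero_re] at h3
  refine h3.congr ?_
  intro K
  simp only [Function.comp, Circle.smul_def, smul_eq_mul]
  rw [intervalIntegral.integral_of_le zero_le_one, ← integral_indicator measurableSet_Ioc]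
  have hf : Integrable (fun s : ℝ => (((Set.Ioc (0:ℝ) 1).indicator h s : ℝ) : ℂ)) :=
    ((integrable_indicator_iff measurableSet_Ioc).mpr hint).ofReal
  have hI : Integrable (fun v : ℝ => (Real.fourierChar (-(v * (K : ℝ))) : ℂ) *
      (((Set.Ioc (0:ℝ) 1).indicator h v : ℝ) : ℂ)) := by
    refine hf.bdd_mul (c := 1) ?_ ?_
    · apply Continuous.aestronglyMeasurable
      exact continuous_subtype_val.comp (Real.continuous_fourierChar.comp (by fun_prop))
    · filter_upwards with v
      simp
  rw [← RCLike.re_eq_complex_re, ← integral_re hI]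
  apply integral_congr_ae
  filter_upwards with v
  by_cases hv : v ∈ Set.Ioc (0:ℝ) 1
  · simp only [Set.indicator_of_mem hv, Real.fourierChar_apply, RCLike.re_eq_complex_re]
    rw [mul_comm, Complex.re_ofReal_mul, Complex.exp_ofReal_mul_I_re]
    congr 1
    rw [← cos_neg]
    congr 1
    ring
  · simp [Set.indicator_of_notMem hv]

/-- The partial sums over odd frequencies converge to the integral against `1/sin`. -/
lemma tendsto_kernel (P : ℝ[X])
    (hint : IntegrableOn (fun s => P.eval s / sin (π * s)) (Set.Ioc 0 1)) :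
    Tendsto (fun K : ℕ => ∑ k ∈ range K, 2 * ∫ s in (0:ℝ)..1,
      P.eval s * sin ((2 * (k : ℝ) + 1) * π * s)) atTop
      (𝓝 (∫ s in (0:ℝ)..1, P.eval s / sin (π * s))) := by
  have hi : IntervalIntegrable (fun s => P.eval s / sin (π * s)) volume 0 1 :=
    (intervalIntegrable_iff_integrableOn_Ioc_of_le zero_le_one).mpr hint
  have h1 := (tendsto_const_nhds (x := ∫ s in (0:ℝ)..1, P.eval s / sin (π * s))
    (f := (atTop : Filter ℕ))).sub (riemann_lebesgue _ hint)
  rw [sub_zero] at h1
  refine h1.congr ?_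
  intro K
  have c1 := P.continuous
  have e1 : ∑ k ∈ range K, 2 * ∫ s in (0:ℝ)..1, P.eval s * sin ((2 * (k : ℝ) + 1) * π * s) =
      ∫ s in (0:ℝ)..1, P.eval s * ∑ k ∈ range K, 2 * sin ((2 * (k : ℝ) + 1) * π * s) := by
    simp_rw [← intervalIntegral.integral_const_mul, Finset.mul_sum]
    rw [intervalIntegral.integral_finset_sum]
    · apply Finset.sum_congr rfl
      intro k _
      congr 1
      funext s
      ring
    · intro k _
      apply Continuous.intervalIntegrable
      fun_prop
  rw [e1]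
  have hi2 : IntervalIntegrable (fun s => P.eval s / sin (π * s) * cos (2 * π * (K : ℝ) * s))
      volume 0 1 := hi.mul_continuousOn (by fun_prop)
  rw [← intervalIntegral.integral_sub hi hi2]
  apply intervalIntegral.integral_congr_ae
  have hne : ∀ᵐ s : ℝ ∂volume, s ≠ 1 := by
    have := measure_singleton (μ := (volume : Measure ℝ)) 1
    rw [ae_iff]
    simpa using this
  filter_upwards [hne] with s hs1 hs
  rw [Set.uIoc_of_le zero_le_one] at hs
  have hlt : s < 1 := lt_of_le_of_ne hs.2 hs1
  have hsin : 0 < sin (π * s) := sin_pos_of_pos_of_lt_pi (mul_pos pi_pos hs.1)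
    (by nlinarith [pi_pos])
  have hk := kernel s K
  have : ∑ k ∈ range K, 2 * sin ((2 * (k : ℝ) + 1) * π * s) =
      (1 - cos (2 * π * (K : ℝ) * s)) / sin (π * s) := by
    rw [eq_div_iff hsin.ne', hk]
  rw [this]
  ring

/-- The identity: linear form = integral. -/
theorem identity (N : ℕ) (P : ℝ[X]) (hN : derivative^[2 * N] P = 0) (hsym : P.comp (1 - X) = P)
    (h0 : P.coeff 0 = 0)
    (hint : IntegrableOn (fun s => P.eval s / sin (π * s)) (Set.Ioc 0 1)) :
    ∑ i ∈ range N, (-1) ^ i * P.coeff (2 * i) / (2 * (i : ℝ) + 1) * G (2 * i + 1) =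
      ∫ s in (0:ℝ)..1, P.eval s / sin (π * s) :=
  tendsto_nhds_unique (hasSum_J N P hN hsym h0).tendsto_sum_nat (tendsto_kernel P hint)

end Pool.Agent.Work.MP_f1a024_nt.OddG
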