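import Mathlib
import Pool.Agent.Work.MP_f1a024_nt.OddG.Core

set_option autoImplicit false

/-!
Integration by parts, positivity and upper bound (helper89).
-/

namespace Pool.Agent.Work.MP_f1a024_nt.OddG

open Real Polynomial MeasureTheory Finset Filter Topology

lemma y_le_sin_half {s : ℝ} (h0 : 0 ≤ s) (h1 : s ≤ 1 / 2) : π * (s * (1 - s)) ≤ sin (π * s) := by
  have hd : ∀ x : ℝ, HasDerivAt (fun s => sin (π * s) - π * (s * (1 - s)))
      (cos (π * x) * π - π * (1 * (1 - x) + x * (-1))) x := by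
    intro x
    have e1 : HasDerivAt (fun s : ℝ => π * s) π x := by simpa using (hasDerivAt_id x).const_mul π
    have e2 : HasDerivAt (fun s : ℝ => s * (1 - s)) (1 * (1 - x) + x * (-1)) x :=
      (hasDerivAt_id x).mul ((hasDerivAt_id x).const_sub 1)
    exact e1.sin.sub (e2.const_mul π)
  have hm : MonotoneOn (fun s => sin (π * s) - π * (s * (1 - s))) (Set.Icc (0:ℝ) (1 / 2)) := by
    apply monotoneOn_of_deriv_nonneg (convex_Icc _ _)
    · exact (continuous_iff_continuousAt.mpr fun x => (hd x).continuousAt).continuousOn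
    · exact fun x _ => (hd x).differentiableAt.differentiableWithinAt
    · intro x hx
      rw [interior_Icc] at hx
      rw [(hd x).deriv]
      have hc := one_sub_mul_le_cos (x := π * x) (by have := hx.1; positivity)
        (by nlinarith [pi_pos, hx.2])
      have : 1 - 2 / π * (π * x) = 1 - 2 * x := by
        have := pi_ne_zero
        field_simp
      rw [this] at hc
      nlinarith [pi_pos]
  have := hm (Set.left_mem_Icc.mpr (by norm_num)) ⟨h0, h1⟩ h0
  simp only [mul_zero, sin_zero, zero_mul, sub_zero] at this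
  linarith

lemma y_le_sin {s : ℝ} (h0 : 0 ≤ s) (h1 : s ≤ 1) : π * (s * (1 - s)) ≤ sin (π * s) := by
  rcases le_total s (1 / 2) with h | h
  · exact y_le_sin_half h0 h
  · have := y_le_sin_half (s := 1 - s) (by linarith) (by linarith)
    have e : sin (π * (1 - s)) = sin (π * s) := by
      rw [mul_sub, mul_one, sin_pi_sub]
    rw [e] at this
    linarith

lemma sin_pos' {s : ℝ} (h0 : 0 < s) (h1 : s < 1) : 0 < sin (π * s) :=
  sin_pos_of_pos_of_lt_pi (mul_pos pi_pos h0) (by nlinarith [pi_pos])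

/-- `g s = s(1-s)/sin(pi s)` lies in `[0, 1/pi]`. -/
lemma g_bound {s : ℝ} (h0 : 0 ≤ s) (h1 : s ≤ 1) :
    0 ≤ s * (1 - s) / sin (π * s) ∧ s * (1 - s) / sin (π * s) ≤ 1 / π := by
  have hy : 0 ≤ s * (1 - s) := mul_nonneg h0 (by linarith)
  have hs : 0 ≤ sin (π * s) := sin_nonneg_of_nonneg_of_le_pi (by positivity)
    (by nlinarith [pi_pos])
  refine ⟨div_nonneg hy hs, ?_⟩
  rcases hs.eq_or_lt with h | h
  · rw [← h, div_zero]; positivity
  · rw [div_le_div_iff₀ h pi_pos]
    have := y_le_sin h0 h1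
    linarith

lemma meas_quot (c : ℝ → ℝ) (hc : Continuous c) (k : ℕ) :
    AEStronglyMeasurable (fun s => (s * (1 - s) / sin (π * s)) ^ k * c s)
      (volume.restrict (Set.Ioc (0:ℝ) 1)) := by
  apply Measurable.aestronglyMeasurable
  apply Measurable.mul
  · apply Measurable.pow_const
    apply Measurable.div
    · exact (by fun_prop : Continuous fun s : ℝ => s * (1 - s)).measurable
    · exact (by fun_prop : Continuous fun s : ℝ => sin (π * s)).measurable
  · exact hc.measurable

lemma integrable_quot (c : ℝ → ℝ) (hc : Continuous c) (k : ℕ) :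
    IntegrableOn (fun s => (s * (1 - s) / sin (π * s)) ^ k * c s) (Set.Ioc (0:ℝ) 1) := by
  obtain ⟨C, hC⟩ := isCompact_Icc.exists_bound_of_continuousOn (hc.continuousOn (s := Set.Icc 0 1))
  refine Integrable.mono' (g := fun _ => (1 / π) ^ k * C) ?_ (meas_quot c hc k) ?_
  · exact integrableOn_const (by simp)
  · rw [ae_restrict_iff' measurableSet_Ioc]
    filter_upwards with s hs
    obtain ⟨g0, g1⟩ := g_bound hs.1.le hs.2
    rw [norm_mul, norm_pow, Real.norm_of_nonneg g0]
    exact mul_le_mul (pow_le_pow_left₀ g0 g1 k) (hC s ⟨hs.1.le, hs.2⟩) (norm_nonneg _)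
      (by positivity)

/-- Integration by parts: `Q = y^2 R`. -/
lemma by_parts (R : ℝ[X]) :
    IntegrableOn (fun s => (derivative (X ^ 2 * (1 - X) ^ 2 * R)).eval s / sin (π * s))
      (Set.Ioc (0:ℝ) 1) ∧
    ∫ s in (0:ℝ)..1, (derivative (X ^ 2 * (1 - X) ^ 2 * R)).eval s / sin (π * s) =
    ∫ s in (0:ℝ)..1, (s * (1 - s) / sin (π * s)) ^ 2 * (π * R.eval s * cos (π * s)) := by
  have cR := R.continuous
  have cR' := (derivative R).continuous
  -- the derivative is `y * R1`
  have e1 : ∀ s : ℝ, (derivative (X ^ 2 * (1 - X) ^ 2 * R)).eval s =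
      s * (1 - s) * (2 * (1 - 2 * s) * R.eval s + s * (1 - s) * (derivative R).eval s) := by
    intro s
    simp only [derivative_mul, derivative_pow, derivative_sub, derivative_one,
      derivative_X, eval_add, eval_mul, eval_pow, eval_X, eval_sub, eval_one, eval_C,
      eval_zero]
    push_cast
    ring
  have e2 : (fun s => (derivative (X ^ 2 * (1 - X) ^ 2 * R)).eval s / sin (π * s)) =
      fun s => (s * (1 - s) / sin (π * s)) ^ 1 *
        (2 * (1 - 2 * s) * R.eval s + s * (1 - s) * (derivative R).eval s) := by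
    funext s
    rw [e1]
    ring
  have hi1 : IntegrableOn (fun s => (derivative (X ^ 2 * (1 - X) ^ 2 * R)).eval s / sin (π * s))
      (Set.Ioc (0:ℝ) 1) := by
    rw [e2]
    exact integrable_quot _ (by fun_prop) 1
  have hi2 : IntegrableOn (fun s => (s * (1 - s) / sin (π * s)) ^ 2 *
      (π * R.eval s * cos (π * s))) (Set.Ioc (0:ℝ) 1) := integrable_quot _ (by fun_prop) 2
  refine ⟨hi1, ?_⟩
  have ii1 := (intervalIntegrable_iff_integrableOn_Ioc_of_le zero_le_one).mpr hi1
  have ii2 := (intervalIntegrable_iff_integrableOn_Ioc_of_le zero_le_one).mpr hi2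
  set F : ℝ → ℝ := fun s => (X ^ 2 * (1 - X) ^ 2 * R).eval s / sin (π * s) with hF
  have hF0 : F 0 = 0 := by simp [hF]
  have hF1 : F 1 = 0 := by simp [hF]
  have hFe : ∀ s, F s = (s * (1 - s) / sin (π * s)) * (s * (1 - s) * R.eval s) := by
    intro s
    simp only [hF, eval_mul, eval_pow, eval_X, eval_sub, eval_one]
    ring
  obtain ⟨C, hC⟩ := isCompact_Icc.exists_bound_of_continuousOn
    (cR.continuousOn (s := Set.Icc (0:ℝ) 1))
  have hbd : ∀ s ∈ Set.Icc (0:ℝ) 1, ‖F s‖ ≤ (1 / π) * (s * (1 - s) * C) := by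
    intro s hs
    obtain ⟨g0, g1⟩ := g_bound hs.1 hs.2
    have hy : 0 ≤ s * (1 - s) := mul_nonneg hs.1 (by linarith [hs.2])
    rw [hFe, norm_mul, norm_mul, Real.norm_of_nonneg g0, Real.norm_of_nonneg hy]
    exact mul_le_mul g1 (mul_le_mul_of_nonneg_left (hC s hs) hy) (by positivity) (by positivity)
  have hcont : ContinuousOn F (Set.Icc 0 1) := by
    intro s hs
    rcases eq_or_ne s 0 with h | h
    · subst h
      rw [ContinuousWithinAt, hF0]
      refine squeeze_zero_norm' (a := fun s => (1 / π) * (s * (1 - s) * C)) ?_ ?_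
      · filter_upwards [self_mem_nhdsWithin] with t ht using hbd t ht
      · have : Tendsto (fun s : ℝ => (1 / π) * (s * (1 - s) * C)) (𝓝 0)
          (𝓝 ((1 / π) * (0 * (1 - 0) * C))) := by
          apply Continuous.tendsto; fun_prop
        simp only [zero_mul, mul_zero] at this
        exact this.mono_left nhdsWithin_le_nhds
    rcases eq_or_ne s 1 with h' | h'
    · subst h'
      rw [ContinuousWithinAt, hF1]
      refine squeeze_zero_norm' (a := fun s => (1 / π) * (s * (1 - s) * C)) ?_ ?_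
      · filter_upwards [self_mem_nhdsWithin] with t ht using hbd t ht
      · have : Tendsto (fun s : ℝ => (1 / π) * (s * (1 - s) * C)) (𝓝 1)
          (𝓝 ((1 / π) * (1 * (1 - 1) * C))) := by
          apply Continuous.tendsto; fun_prop
        simp only [sub_self, zero_mul, mul_zero] at this
        exact this.mono_left nhdsWithin_le_nhds
    · have hs0 : 0 < s := lt_of_le_of_ne hs.1 (Ne.symm h)
      have hs1 : s < 1 := lt_of_le_of_ne hs.2 h'
      have c3 : ContinuousAt (fun s : ℝ => sin (π * s)) s := by fun_prop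
      have c4 : ContinuousAt F s := ContinuousAt.div
        (Polynomial.continuous (X ^ 2 * (1 - X) ^ 2 * R)).continuousAt c3 (sin_pos' hs0 hs1).ne'
      exact c4.continuousWithinAt
  have hder : ∀ s ∈ Set.Ioo (0:ℝ) 1, HasDerivAt F
      ((derivative (X ^ 2 * (1 - X) ^ 2 * R)).eval s / sin (π * s) -
        (s * (1 - s) / sin (π * s)) ^ 2 * (π * R.eval s * cos (π * s))) s := by
    intro s hs
    have hsin := (sin_pos' hs.1 hs.2).ne'
    have d1 := (X ^ 2 * (1 - X) ^ 2 * R : ℝ[X]).hasDerivAt s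
    have d2 : HasDerivAt (fun s : ℝ => π * s) π s := by simpa using (hasDerivAt_id s).const_mul π
    have d3 := d1.div d2.sin hsin
    have e3 : (X ^ 2 * (1 - X) ^ 2 * R : ℝ[X]).eval s = (s * (1 - s)) ^ 2 * R.eval s := by
      simp only [eval_mul, eval_pow, eval_X, eval_sub, eval_one]
      ring
    have e4 : (derivative (X ^ 2 * (1 - X) ^ 2 * R)).eval s / sin (π * s) -
        (s * (1 - s) / sin (π * s)) ^ 2 * (π * R.eval s * cos (π * s)) =
        ((derivative (X ^ 2 * (1 - X) ^ 2 * R)).eval s * sin (π * s) -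
        (X ^ 2 * (1 - X) ^ 2 * R : ℝ[X]).eval s * (cos (π * s) * π)) / sin (π * s) ^ 2 := by
      rw [e3]
      field_simp
    rw [e4]
    exact d3
  have key := intervalIntegral.integral_eq_sub_of_hasDerivAt_of_le zero_le_one hcont hder
    (ii1.sub ii2)
  rw [intervalIntegral.integral_sub ii1 ii2, hF0, hF1] at key
  linarith

lemma cos_sign {s : ℝ} (h0 : 0 ≤ s) (h1 : s ≤ 1) : 0 ≤ (1 - 2 * s) * cos (π * s) := by
  rcases le_total s (1 / 2) with h | h
  · exact mul_nonneg (by linarith) (cos_nonneg_of_neg_pi_div_two_le_of_le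
      (by nlinarith [pi_pos]) (by nlinarith [pi_pos]))
  · exact mul_nonneg_of_nonpos_of_nonpos (by linarith)
      (cos_nonpos_of_pi_div_two_le_of_le (by nlinarith [pi_pos]) (by nlinarith [pi_pos]))

lemma integral_cos : ∫ s in (0:ℝ)..1, (1 - 2 * s) * cos (π * s) = 4 / π ^ 2 := by
  have hd : ∀ s ∈ Set.uIcc (0:ℝ) 1, HasDerivAt
      (fun s => (1 - 2 * s) * sin (π * s) / π - 2 * cos (π * s) / π ^ 2)
      ((1 - 2 * s) * cos (π * s)) s := by
    intro s _
    have d2 : HasDerivAt (fun s : ℝ => π * s) π s := by simpa using (hasDerivAt_id s).const_mul π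
    have d1 : HasDerivAt (fun s : ℝ => 1 - 2 * s) (-2) s := by
      simpa using ((hasDerivAt_id s).const_mul (2:ℝ)).const_sub 1
    have d3 := ((d1.mul d2.sin).div_const π).sub ((d2.cos.const_mul 2).div_const (π ^ 2))
    have e : (1 - 2 * s) * cos (π * s) = (-2 * sin (π * s) + (1 - 2 * s) * (cos (π * s) * π)) / π -
        2 * (-sin (π * s) * π) / π ^ 2 := by
      have := pi_ne_zero
      field_simp
      ring
    rw [e]
    exact d3
  rw [intervalIntegral.integral_eq_sub_of_hasDerivAt hd
    (by apply Continuous.intervalIntegrable; fun_prop)]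
  simp
  ring

/-- `M^5 (1-2s) V(M^2 s(1-s))`. -/
noncomputable def RR (M : ℕ) (V : ℤ[X]) : ℝ[X] :=
  C ((M : ℝ) ^ 5) * (1 - 2 * X) *
    (V.map (Int.castRingHom ℝ)).comp (C ((M : ℝ) ^ 2) * (X * (1 - X)))

/-- Positivity and upper bound of the integral. -/
lemma main_bound (M : ℕ) (hM : 0 < M) (V : ℤ[X]) (hV : V ≠ 0) (U : ℝ)
    (hU : ∀ y : ℝ, 0 ≤ y → 4 * y ≤ (M : ℝ) ^ 2 →
      0 ≤ (V.map (Int.castRingHom ℝ)).eval y ∧ (V.map (Int.castRingHom ℝ)).eval y ≤ U) :
    0 < ∫ s in (0:ℝ)..1, (s * (1 - s) / sin (π * s)) ^ 2 *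
      (π * (RR M V).eval s * cos (π * s)) ∧
    π ^ 3 * (∫ s in (0:ℝ)..1,
      (s * (1 - s) / sin (π * s)) ^ 2 * (π * (RR M V).eval s * cos (π * s))) ≤
      4 * (M : ℝ) ^ 5 * U := by
  have cR := (RR M V).continuous
  have hM' : (0:ℝ) < M := by exact_mod_cast hM
  set W : ℝ[X] := V.map (Int.castRingHom ℝ) with hW
  have hRe : ∀ s : ℝ, (RR M V).eval s = (M : ℝ) ^ 5 * (1 - 2 * s) *
      W.eval ((M : ℝ) ^ 2 * (s * (1 - s))) := by
    intro s
    simp [RR, hW]
  have hi2 : IntegrableOn (fun s => (s * (1 - s) / sin (π * s)) ^ 2 *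
      (π * (RR M V).eval s * cos (π * s))) (Set.Ioc (0:ℝ) 1) :=
    integrable_quot _ (by fun_prop) 2
  have ii2 := (intervalIntegrable_iff_integrableOn_Ioc_of_le zero_le_one).mpr hi2
  have hval : ∀ s : ℝ, (s * (1 - s) / sin (π * s)) ^ 2 * (π * (RR M V).eval s * cos (π * s)) =
      (π * (M : ℝ) ^ 5 * ((s * (1 - s) / sin (π * s)) ^ 2 *
        W.eval ((M : ℝ) ^ 2 * (s * (1 - s))))) * ((1 - 2 * s) * cos (π * s)) := by
    intro s
    rw [hRe]
    ring
  have hW01 : ∀ s : ℝ, 0 ≤ s → s ≤ 1 → 0 ≤ W.eval ((M : ℝ) ^ 2 * (s * (1 - s))) ∧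
      W.eval ((M : ℝ) ^ 2 * (s * (1 - s))) ≤ U := by
    intro s h0 h1
    have hy : 0 ≤ s * (1 - s) := mul_nonneg h0 (by linarith)
    have h4 : 4 * (s * (1 - s)) ≤ 1 := by nlinarith [sq_nonneg (1 - 2 * s)]
    apply hU
    · positivity
    · have : (0:ℝ) ≤ (M : ℝ) ^ 2 := by positivity
      nlinarith
  have hnn : ∀ s ∈ Set.Icc (0:ℝ) 1, 0 ≤ (s * (1 - s) / sin (π * s)) ^ 2 *
      (π * (RR M V).eval s * cos (π * s)) := by
    intro s hs
    rw [hval]
    have h1 := (hW01 s hs.1 hs.2).1
    have := pi_pos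
    exact mul_nonneg (by positivity) (cos_sign hs.1 hs.2)
  constructor
  · -- positivity
    have hsub : ∀ a b : ℝ, 0 ≤ a → a ≤ b → b ≤ 1 → IntervalIntegrable
        (fun s => (s * (1 - s) / sin (π * s)) ^ 2 * (π * (RR M V).eval s * cos (π * s)))
        volume a b := by
      intro a b ha hab hb
      exact ii2.mono_set (by
        rw [Set.uIcc_of_le hab, Set.uIcc_of_le zero_le_one]
        exact Set.Icc_subset_Icc ha hb)
    have hsplit : ∫ s in (0:ℝ)..1, (s * (1 - s) / sin (π * s)) ^ 2 *
        (π * (RR M V).eval s * cos (π * s)) =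
        (∫ s in (0:ℝ)..(1 / 8), (s * (1 - s) / sin (π * s)) ^ 2 *
        (π * (RR M V).eval s * cos (π * s))) + (∫ s in (1 / 8 : ℝ)..(3 / 8),
        (s * (1 - s) / sin (π * s)) ^ 2 * (π * (RR M V).eval s * cos (π * s))) +
        ∫ s in (3 / 8 : ℝ)..1, (s * (1 - s) / sin (π * s)) ^ 2 *
        (π * (RR M V).eval s * cos (π * s)) := by
      rw [intervalIntegral.integral_add_adjacent_intervals (hsub 0 (1 / 8) (by norm_num)
        (by norm_num) (by norm_num)) (hsub (1 / 8) (3 / 8) (by norm_num)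
        (by norm_num) (by norm_num)), intervalIntegral.integral_add_adjacent_intervals
        (hsub 0 (3 / 8) (by norm_num) (by norm_num) (by norm_num)) (hsub (3 / 8) 1 (by norm_num)
        (by norm_num) (by norm_num))]
    rw [hsplit]
    have h1 : 0 ≤ ∫ s in (0:ℝ)..(1 / 8), (s * (1 - s) / sin (π * s)) ^ 2 *
        (π * (RR M V).eval s * cos (π * s)) := by
      apply intervalIntegral.integral_nonneg (by norm_num)
      intro s hs
      exact hnn s ⟨hs.1, by linarith [hs.2]⟩
    have h3 : 0 ≤ ∫ s in (3 / 8 : ℝ)..1, (s * (1 - s) / sin (π * s)) ^ 2 *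
        (π * (RR M V).eval s * cos (π * s)) := by
      apply intervalIntegral.integral_nonneg (by norm_num)
      intro s hs
      exact hnn s ⟨by linarith [hs.1], hs.2⟩
    have h2 : 0 < ∫ s in (1 / 8 : ℝ)..(3 / 8),
        (s * (1 - s) / sin (π * s)) ^ 2 * (π * (RR M V).eval s * cos (π * s)) := by
      apply intervalIntegral.integral_pos (by norm_num)
      · have hne : ∀ s ∈ Set.Icc (1 / 8 : ℝ) (3 / 8), sin (π * s) ≠ 0 := by
          intro s hs
          exact (sin_pos' (by linarith [hs.1]) (by linarith [hs.2])).ne'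
        apply ContinuousOn.mul
        · apply ContinuousOn.pow
          exact ContinuousOn.div (by fun_prop) (by fun_prop) hne
        · fun_prop
      · intro s hs
        exact hnn s ⟨by linarith [hs.1], by linarith [hs.2]⟩
      · -- a point where W does not vanish
        have hWne : W ≠ 0 := by
          rw [hW]
          exact (Polynomial.map_ne_zero_iff (RingHom.injective_int _)).mpr hV
        by_contra hcon
        push Not at hcon
        have hz : ∀ s ∈ Set.Icc (1 / 8 : ℝ) (3 / 8), W.eval ((M : ℝ) ^ 2 * (s * (1 - s))) = 0 := by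
          intro s hs
          by_contra hne
          have hs0 : 0 < s := by linarith [hs.1]
          have hs1 : s < 1 := by linarith [hs.2]
          have h5 := lt_of_le_of_ne (hW01 s hs0.le hs1.le).1 (Ne.symm hne)
          have h6 := sin_pos' hs0 hs1
          have h7 : 0 < 1 - s := by linarith
          have h8 : 0 < 1 - 2 * s := by linarith [hs.2]
          have h9 : 0 < cos (π * s) := cos_pos_of_mem_Ioo
            ⟨by nlinarith [pi_pos], by nlinarith [pi_pos, hs.2]⟩
          have h10 := hcon s hs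
          rw [hval] at h10
          have h11 := pi_pos
          have : 0 < (π * (M : ℝ) ^ 5 * ((s * (1 - s) / sin (π * s)) ^ 2 *
            W.eval ((M : ℝ) ^ 2 * (s * (1 - s))))) * ((1 - 2 * s) * cos (π * s)) := by
            positivity
          linarith
        apply hWne
        apply Polynomial.eq_zero_of_infinite_isRoot
        refine Set.Infinite.mono (s := (fun s : ℝ => (M : ℝ) ^ 2 * (s * (1 - s))) ''
          Set.Icc (1 / 8 : ℝ) (3 / 8)) ?_ ?_
        · rintro _ ⟨s, hs, rfl⟩
          exact hz s hs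
        · apply Set.Infinite.image
          · intro a ha b hb hab
            simp only at hab
            have h12 : (M : ℝ) ^ 2 ≠ 0 := by positivity
            have h13 := mul_left_cancel₀ h12 hab
            have h14 : (a - b) * (1 - a - b) = 0 := by linarith
            rcases mul_eq_zero.mp h14 with h | h
            · linarith
            · exfalso
              linarith [ha.2, hb.2]
          · exact Set.Icc_infinite (by norm_num)
    linarith
  · -- upper bound
    have hub : ∀ s ∈ Set.Icc (0:ℝ) 1, (s * (1 - s) / sin (π * s)) ^ 2 *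
        (π * (RR M V).eval s * cos (π * s)) ≤
        ((M : ℝ) ^ 5 * U / π) * ((1 - 2 * s) * cos (π * s)) := by
      intro s hs
      rw [hval]
      apply mul_le_mul_of_nonneg_right _ (cos_sign hs.1 hs.2)
      obtain ⟨g0, g1⟩ := g_bound hs.1 hs.2
      obtain ⟨w0, w1⟩ := hW01 s hs.1 hs.2
      have h2 : (s * (1 - s) / sin (π * s)) ^ 2 ≤ (1 / π) ^ 2 := pow_le_pow_left₀ g0 g1 2
      calc π * (M : ℝ) ^ 5 * ((s * (1 - s) / sin (π * s)) ^ 2 *
            W.eval ((M : ℝ) ^ 2 * (s * (1 - s))))
          ≤ π * (M : ℝ) ^ 5 * ((1 / π) ^ 2 * U) := by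
            apply mul_le_mul_of_nonneg_left _ (by have := pi_pos; positivity)
            exact mul_le_mul h2 w1 w0 (by positivity)
        _ = (M : ℝ) ^ 5 * U / π := by
            have := pi_ne_zero
            field_simp
    have hint := intervalIntegral.integral_mono_on zero_le_one ii2
      (by apply Continuous.intervalIntegrable; fun_prop) hub
    rw [intervalIntegral.integral_const_mul, integral_cos] at hint
    have h9 := mul_le_mul_of_nonneg_left hint (by have := pi_pos; positivity : (0:ℝ) ≤ π ^ 3)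
    have h10 : π ^ 3 * ((M : ℝ) ^ 5 * U / π * (4 / π ^ 2)) = 4 * (M : ℝ) ^ 5 * U := by
      have := pi_ne_zero
      field_simp
    rw [h10] at h9
    exact h9

end Pool.Agent.Work.MP_f1a024_nt.OddG
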