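import Mathlib
import Pool.Agent.Work.MP_f1a024_nt.OddG.Int

set_option autoImplicit false

/-!
The lattice statement for `M^n G n`, `n` odd (helper89).
-/

namespace Pool.Agent.Work.MP_f1a024_nt.OddG

open Real Polynomial MeasureTheory Finset Filter Topology

/-- The integer polynomial `(M - 2X) Y^2 V(Y)`, `Y = X (M - X)`. -/
noncomputable def Rz (M : ℕ) (V : ℤ[X]) : ℤ[X] :=
  (C (M : ℤ) - 2 * X) * (X * (C (M : ℤ) - X)) ^ 2 * V.comp (X * (C (M : ℤ) - X))

lemma Rz_map (M : ℕ) (V : ℤ[X]) :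
    ((Rz M V).comp (C (M : ℤ) * X)).map (Int.castRingHom ℝ) =
      X ^ 2 * (1 - X) ^ 2 * RR M V := by
  unfold Rz RR
  simp only [Polynomial.map_comp, Polynomial.map_mul, Polynomial.map_pow, Polynomial.map_sub,
    map_X, Polynomial.map_ofNat, mul_comp, pow_comp, sub_comp, X_comp, ofNat_comp,
    Nat.cast_ofNat, comp_assoc, map_natCast, map_pow, Polynomial.map_natCast, natCast_comp]
  have e : (M : ℝ[X]) * X * ((M : ℝ[X]) - (M : ℝ[X]) * X) = (M : ℝ[X]) ^ 2 * (X * (1 - X)) := by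
    ring
  rw [e]
  ring

lemma Rz_coeff (M : ℕ) (V : ℤ[X]) (j : ℕ) :
    (X ^ 2 * (1 - X) ^ 2 * RR M V).coeff j = ((Rz M V).coeff j : ℝ) * (M : ℝ) ^ j := by
  rw [← Rz_map, coeff_map, comp_C_mul_X_coeff]
  simp

lemma Rz_coeff_zero (M : ℕ) (V : ℤ[X]) (a j : ℕ) (ha : X ^ a ∣ V) (hj : j < a + 2) :
    (Rz M V).coeff j = 0 := by
  obtain ⟨V', hV'⟩ := ha
  have : Rz M V = X ^ (a + 2) * ((C (M : ℤ) - 2 * X) * (C (M : ℤ) - X) ^ 2 *
      (C (M : ℤ) - X) ^ a * V'.comp (X * (C (M : ℤ) - X))) := by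
    unfold Rz
    rw [hV', mul_comp, pow_comp, X_comp, mul_pow, mul_pow]
    ring
  rw [this, coeff_X_pow_mul', if_neg (by omega)]

lemma Q_sym (M : ℕ) (V : ℤ[X]) : (derivative (X ^ 2 * (1 - X) ^ 2 * RR M V)).comp (1 - X) =
    derivative (X ^ 2 * (1 - X) ^ 2 * RR M V) := by
  set Q : ℝ[X] := X ^ 2 * (1 - X) ^ 2 * RR M V with hQ
  have h1 : Q.comp (1 - X) = -Q := by
    rw [hQ]
    unfold RR
    simp only [mul_comp, pow_comp, sub_comp, one_comp, X_comp, ofNat_comp, Nat.cast_ofNat,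
      comp_assoc, C_comp]
    have e : (1 - X) * (1 - (1 - X)) = (X * (1 - X) : ℝ[X]) := by ring
    rw [e]
    ring
  have h2 := congrArg derivative h1
  rw [derivative_comp] at h2
  simp only [derivative_sub, derivative_one, derivative_X, derivative_neg] at h2
  linear_combination (-1 : ℝ[X]) * h2

lemma RR_natDegree (M : ℕ) (V : ℤ[X]) :
    (X ^ 2 * (1 - X) ^ 2 * RR M V : ℝ[X]).natDegree ≤ 2 * V.natDegree + 5 := by
  unfold RR
  have hx : (1 - X : ℝ[X]).natDegree ≤ 1 := by compute_degree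
  have hx2 : (C ((M : ℝ) ^ 5) * (1 - 2 * X) : ℝ[X]).natDegree ≤ 1 := by
    refine (natDegree_C_mul_le _ _).trans ?_
    compute_degree
  have hxx : (C ((M : ℝ) ^ 2) * (X * (1 - X)) : ℝ[X]).natDegree ≤ 2 := by
    refine (natDegree_C_mul_le _ _).trans ?_
    exact natDegree_mul_le.trans (by rw [natDegree_X]; omega)
  have hV : ((V.map (Int.castRingHom ℝ)).comp (C ((M : ℝ) ^ 2) * (X * (1 - X)))).natDegree ≤
      V.natDegree * 2 := by
    refine natDegree_comp_le.trans ?_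
    exact Nat.mul_le_mul natDegree_map_le hxx
  calc _ ≤ (X ^ 2 * (1 - X) ^ 2 : ℝ[X]).natDegree + (C ((M : ℝ) ^ 5) * (1 - 2 * X) *
        (V.map (Int.castRingHom ℝ)).comp (C ((M : ℝ) ^ 2) * (X * (1 - X)))).natDegree :=
          natDegree_mul_le
    _ ≤ (2 * 1 + 2 * 1) + (1 + V.natDegree * 2) := by
        gcongr
        · refine natDegree_mul_le.trans ?_
          gcongr
          · exact natDegree_pow_le.trans (by rw [natDegree_X])
          · exact natDegree_pow_le.trans (by gcongr)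
        · refine natDegree_mul_le.trans ?_
          gcongr
    _ ≤ 2 * V.natDegree + 5 := by omega

lemma form_eq (M : ℕ) (V : ℤ[X]) :
    ∑ i ∈ range (V.natDegree + 3), (-1) ^ i * (((Rz M V).coeff (2 * i + 1) : ℝ) *
      (M : ℝ) ^ (2 * i + 1)) * G (2 * i + 1) =
    ∫ s in (0:ℝ)..1, (s * (1 - s) / sin (π * s)) ^ 2 * (π * (RR M V).eval s * cos (π * s)) := by
  obtain ⟨hint, hbp⟩ := by_parts (RR M V)
  rw [← hbp]
  have hdeg : (derivative (X ^ 2 * (1 - X) ^ 2 * RR M V)).natDegree < 2 * (V.natDegree + 3) := by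
    have h1 := RR_natDegree M V
    have h2 := natDegree_derivative_le (X ^ 2 * (1 - X) ^ 2 * RR M V : ℝ[X])
    omega
  have hc : ∀ j, (derivative (X ^ 2 * (1 - X) ^ 2 * RR M V)).coeff j =
      ((Rz M V).coeff (j + 1) : ℝ) * (M : ℝ) ^ (j + 1) * ((j : ℝ) + 1) := by
    intro j
    rw [coeff_derivative, Rz_coeff]
  have h0 : (derivative (X ^ 2 * (1 - X) ^ 2 * RR M V)).coeff 0 = 0 := by
    rw [hc, Rz_coeff_zero M V 0 _ (by simp) (by omega)]
    simp
  have hid := identity (V.natDegree + 3) (derivative (X ^ 2 * (1 - X) ^ 2 * RR M V))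
    (iterate_derivative_eq_zero hdeg) (Q_sym M V) h0 hint
  rw [← hid]
  apply Finset.sum_congr rfl
  intro i _
  rw [hc]
  push_cast
  have : (2 * (i : ℝ) + 1) ≠ 0 := by positivity
  field_simp

/-- General lattice bound: if `M^n G n` lies in `δ ℤ` for all odd `n` between `a + 2` and
`2 deg V + 5`, then `δ` is at most `4 M^5 / pi^3` times the maximum of `V` on `[0, M^2/4]`. -/
theorem lattice_gen (M : ℕ) (hM : 0 < M) (V : ℤ[X]) (hV : V ≠ 0) (a : ℕ) (ha : X ^ a ∣ V)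
    (U : ℝ) (hU : ∀ y : ℝ, 0 ≤ y → 4 * y ≤ (M : ℝ) ^ 2 →
      0 ≤ (V.map (Int.castRingHom ℝ)).eval y ∧ (V.map (Int.castRingHom ℝ)).eval y ≤ U)
    (δ : ℝ) (hδ : 0 < δ)
    (h : ∀ n : ℕ, Odd n → a + 2 ≤ n → n ≤ 2 * V.natDegree + 5 →
      ∃ k : ℤ, (M : ℝ) ^ n * G n = δ * k) :
    π ^ 3 * δ ≤ 4 * (M : ℝ) ^ 5 * U := by
  obtain ⟨hpos, hub⟩ := main_bound M hM V hV U hU
  rw [← form_eq M V] at hpos hub
  set S : ℝ := ∑ i ∈ range (V.natDegree + 3), (-1) ^ i * (((Rz M V).coeff (2 * i + 1) : ℝ) *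
      (M : ℝ) ^ (2 * i + 1)) * G (2 * i + 1) with hS
  have hm : ∃ m : ℤ, S = δ * m := by
    have hterm : ∀ i ∈ range (V.natDegree + 3), ∃ m : ℤ,
        (-1) ^ i * (((Rz M V).coeff (2 * i + 1) : ℝ) *
      (M : ℝ) ^ (2 * i + 1)) * G (2 * i + 1) = δ * m := by
      intro i hi
      rw [Finset.mem_range] at hi
      by_cases hlow : 2 * i + 1 < a + 2
      · exact ⟨0, by rw [Rz_coeff_zero M V a _ ha hlow]; simp⟩
      · obtain ⟨k, hk⟩ := h (2 * i + 1) ⟨i, rfl⟩ (by omega) (by omega)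
        refine ⟨(-1) ^ i * (Rz M V).coeff (2 * i + 1) * k, ?_⟩
        push_cast
        calc (-1) ^ i * (((Rz M V).coeff (2 * i + 1) : ℝ) *
              (M : ℝ) ^ (2 * i + 1)) * G (2 * i + 1)
            = (-1) ^ i * (Rz M V).coeff (2 * i + 1) * ((M : ℝ) ^ (2 * i + 1) * G (2 * i + 1)) := by
              ring
          _ = _ := by rw [hk]; ring
    choose! m hm using hterm
    refine ⟨∑ i ∈ range (V.natDegree + 3), m i, ?_⟩
    rw [hS, Finset.sum_congr rfl hm, ← Finset.mul_sum]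
    push_cast
    rfl
  obtain ⟨m, hm⟩ := hm
  rw [hm] at hpos
  have h2 : (0:ℝ) < m := by
    by_contra hneg
    push Not at hneg
    nlinarith
  have h3 : (1:ℝ) ≤ m := by exact_mod_cast (by exact_mod_cast h2 : (0:ℤ) < m)
  have h4 : δ ≤ S := by rw [hm]; nlinarith
  calc π ^ 3 * δ ≤ π ^ 3 * S := mul_le_mul_of_nonneg_left h4 (by have := pi_pos; positivity)
    _ ≤ _ := hub

end Pool.Agent.Work.MP_f1a024_nt.OddG
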