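import Mathlib
import Pool.Agent.Work.MP_f1a024_nt.OddG.Lat

set_option autoImplicit false

/-!
Concrete polynomials, and the link with the zeta function (helper89).
-/

namespace Pool.Agent.Work.MP_f1a024_nt.OddG

open Real Polynomial MeasureTheory Finset Filter Topology

/-- `z^4 (1-4z) <= 5^(-5)` for `0 <= z <= 1/4`. -/
lemma f_bound {z : ℝ} (h0 : 0 ≤ z) (h1 : 4 * z ≤ 1) :
    0 ≤ z ^ 4 * (1 - 4 * z) ∧ z ^ 4 * (1 - 4 * z) ≤ 1 / 3125 := by
  refine ⟨mul_nonneg (by positivity) (by linarith), ?_⟩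
  -- 1/3125 - z^4 + 4 z^5 = 4 (z - 1/5)^2 (z^3 + (3/20) z^2 + (1/50) z + 1/500)
  have : 1 / 3125 - z ^ 4 * (1 - 4 * z) =
      4 * (z - 1 / 5) ^ 2 * (z ^ 3 + 3 / 20 * z ^ 2 + 1 / 50 * z + 1 / 500) := by ring
  have h2 : 0 ≤ 4 * (z - 1 / 5) ^ 2 * (z ^ 3 + 3 / 20 * z ^ 2 + 1 / 50 * z + 1 / 500) := by
    positivity
  linarith

/-- `z^4 (1+z) <= (9/16)^4 (25/16)` for `-1 <= z <= 9/16`. -/
lemma f3_bound {z : ℝ} (h0 : -1 ≤ z) (h1 : z ≤ 9 / 16) :
    0 ≤ z ^ 4 * (1 + z) ∧ z ^ 4 * (1 + z) ≤ 164025 / 1048576 := by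
  refine ⟨mul_nonneg (by positivity) (by linarith), ?_⟩
  rcases le_total 0 z with h | h
  · have h2 : z ^ 4 ≤ (9 / 16) ^ 4 := pow_le_pow_left₀ h h1 4
    have h3 : z ^ 4 * (1 + z) ≤ (9 / 16) ^ 4 * (1 + 9 / 16) :=
      mul_le_mul h2 (by linarith) (by linarith) (by positivity)
    norm_num at h3 ⊢
    linarith
  · -- w = -z in [0,1]: w^4 (1-w) <= 256/3125
    have h4 := (f_bound (z := -z / 4) (by linarith) (by linarith)).2
    have h5 : z ^ 4 * (1 + z) = 256 * ((-z / 4) ^ 4 * (1 - 4 * (-z / 4))) := by ring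
    rw [h5]
    linarith

noncomputable def V1 (r : ℕ) : ℤ[X] := (X ^ 4 * (1 - 4 * X)) ^ r
noncomputable def V2 (r : ℕ) : ℤ[X] := ((X * (1 - X)) ^ 4 * (1 - 4 * (X * (1 - X)))) ^ r
noncomputable def V3 (r : ℕ) : ℤ[X] := ((X * (X - 2)) ^ 4 * (1 + X * (X - 2))) ^ r

lemma V1_ne (r : ℕ) : V1 r ≠ 0 := by
  apply pow_ne_zero
  intro h
  have := congrArg (eval 3) h
  norm_num at this

lemma V2_ne (r : ℕ) : V2 r ≠ 0 := by
  apply pow_ne_zero
  intro h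
  have := congrArg (eval 3) h
  norm_num at this

lemma V3_ne (r : ℕ) : V3 r ≠ 0 := by
  apply pow_ne_zero
  intro h
  have := congrArg (eval 3) h
  norm_num at this

lemma V1_dvd (r : ℕ) : X ^ (4 * r) ∣ V1 r := by
  rw [V1, mul_pow, ← pow_mul]; exact Dvd.intro _ rfl

lemma V2_dvd (r : ℕ) : X ^ (4 * r) ∣ V2 r := by
  rw [V2, mul_pow, mul_pow, mul_pow, ← pow_mul, mul_assoc]; exact Dvd.intro _ rfl

lemma V3_dvd (r : ℕ) : X ^ (4 * r) ∣ V3 r := by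
  rw [V3, mul_pow, mul_pow, mul_pow, ← pow_mul, mul_assoc]; exact Dvd.intro _ rfl

lemma V1_deg (r : ℕ) : (V1 r).natDegree ≤ 5 * r := by
  unfold V1
  refine natDegree_pow_le.trans ?_
  rw [mul_comm 5 r]
  apply Nat.mul_le_mul_left
  compute_degree

lemma V2_deg (r : ℕ) : (V2 r).natDegree ≤ 10 * r := by
  unfold V2
  refine natDegree_pow_le.trans ?_
  rw [mul_comm 10 r]
  apply Nat.mul_le_mul_left
  compute_degree

lemma V3_deg (r : ℕ) : (V3 r).natDegree ≤ 10 * r := by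
  unfold V3
  refine natDegree_pow_le.trans ?_
  rw [mul_comm 10 r]
  apply Nat.mul_le_mul_left
  compute_degree

theorem lattice_1 (r : ℕ) (δ : ℝ) (hδ : 0 < δ)
    (h : ∀ n : ℕ, Odd n → 4 * r + 2 ≤ n → n ≤ 10 * r + 5 →
      ∃ k : ℤ, ((1 : ℕ) : ℝ) ^ n * G n = δ * k) :
    π ^ 3 * δ ≤ 4 * (1 / 3125) ^ r := by
  have hd := V1_deg r
  have := lattice_gen 1 one_pos (V1 r) (V1_ne r) (4 * r) (V1_dvd r) ((1 / 3125) ^ r) (by
    intro y hy0 hy1
    have e : ((V1 r).map (Int.castRingHom ℝ)).eval y = (y ^ 4 * (1 - 4 * y)) ^ r := by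
      simp [V1]
    obtain ⟨f0, f1⟩ := f_bound hy0 (by push_cast at hy1; linarith)
    rw [e]
    exact ⟨pow_nonneg f0 r, pow_le_pow_left₀ f0 f1 r⟩) δ hδ
    (fun n h1 h2 h3 => h n h1 h2 (by omega))
  push_cast at this
  linarith

theorem lattice_2 (r : ℕ) (δ : ℝ) (hδ : 0 < δ)
    (h : ∀ n : ℕ, Odd n → 4 * r + 2 ≤ n → n ≤ 20 * r + 5 →
      ∃ k : ℤ, ((2 : ℕ) : ℝ) ^ n * G n = δ * k) :
    π ^ 3 * δ ≤ 128 * (1 / 3125) ^ r := by
  have hd := V2_deg r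
  have := lattice_gen 2 two_pos (V2 r) (V2_ne r) (4 * r) (V2_dvd r) ((1 / 3125) ^ r) (by
    intro y hy0 hy1
    have e : ((V2 r).map (Int.castRingHom ℝ)).eval y =
        ((y * (1 - y)) ^ 4 * (1 - 4 * (y * (1 - y)))) ^ r := by
      simp [V2]
    have hy2 : y ≤ 1 := by push_cast at hy1; linarith
    obtain ⟨f0, f1⟩ := f_bound (z := y * (1 - y)) (mul_nonneg hy0 (by linarith))
      (by nlinarith [sq_nonneg (1 - 2 * y)])
    rw [e]
    exact ⟨pow_nonneg f0 r, pow_le_pow_left₀ f0 f1 r⟩) δ hδ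
    (fun n h1 h2 h3 => h n h1 h2 (by omega))
  push_cast at this
  linarith

theorem lattice_3 (r : ℕ) (δ : ℝ) (hδ : 0 < δ)
    (h : ∀ n : ℕ, Odd n → 4 * r + 2 ≤ n → n ≤ 20 * r + 5 →
      ∃ k : ℤ, ((3 : ℕ) : ℝ) ^ n * G n = δ * k) :
    π ^ 3 * δ ≤ 972 * (164025 / 1048576) ^ r := by
  have hd := V3_deg r
  have := lattice_gen 3 three_pos (V3 r) (V3_ne r) (4 * r) (V3_dvd r)
    ((164025 / 1048576) ^ r) (by
    intro y hy0 hy1
    have e : ((V3 r).map (Int.castRingHom ℝ)).eval y =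
        ((y * (y - 2)) ^ 4 * (1 + y * (y - 2))) ^ r := by
      simp [V3]
    have hy2 : y ≤ 9 / 4 := by push_cast at hy1; linarith
    obtain ⟨f0, f1⟩ := f3_bound (z := y * (y - 2)) (by nlinarith [sq_nonneg (y - 1)])
      (by nlinarith)
    rw [e]
    exact ⟨pow_nonneg f0 r, pow_le_pow_left₀ f0 f1 r⟩) δ hδ
    (fun n h1 h2 h3 => h n h1 h2 (by omega))
  push_cast at this
  linarith

/-- Sum over odd integers against the zeta value. -/
lemma lam_eq (n : ℕ) (hn : 2 ≤ n) :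
    riemannZeta n * (1 - 1 / 2 ^ n) = ((lam n : ℝ) : ℂ) := by
  have hz := zeta_nat_eq_tsum_of_gt_one (k := n) (by omega)
  set f : ℕ → ℝ := fun m => 1 / (m : ℝ) ^ n with hf
  have hs : Summable f := (Real.summable_one_div_nat_pow (p := n)).mpr (by omega)
  have he : Summable (fun k : ℕ => f (2 * k)) :=
    hs.comp_injective (i := fun k : ℕ => 2 * k) (fun a b h => by
      have h' : 2 * a = 2 * b := h
      omega)
  have ho : Summable (fun k : ℕ => f (2 * k + 1)) :=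
    hs.comp_injective (i := fun k : ℕ => 2 * k + 1) (fun a b h => by
      have h' : 2 * a + 1 = 2 * b + 1 := h
      omega)
  have hsplit := tsum_even_add_odd he ho
  have e1 : ∑' k : ℕ, f (2 * k) = 1 / 2 ^ n * ∑' k, f k := by
    rw [← tsum_mul_left]
    congr 1
    funext k
    simp only [hf]
    push_cast
    rw [mul_pow]
    ring
  have e2 : ∑' k : ℕ, f (2 * k + 1) = lam n := by
    unfold lam
    congr 1
    funext k
    simp only [hf]
    push_cast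
    rfl
  rw [e1, e2] at hsplit
  have e3 : riemannZeta n = ((∑' k, f k : ℝ) : ℂ) := by
    rw [hz, Complex.ofReal_tsum]
    congr 1
    funext k
    simp only [hf]
    push_cast
    rfl
  have e4 : lam n = (∑' k, f k) * (1 - 1 / 2 ^ n) := by linarith
  rw [e3, e4]
  push_cast
  ring

/-- The link: `t(n) C(2n,n) G(n)^2 = 8 (2^n-1)^2 B_(2n)` for odd `n >= 3`. -/
lemma link (n : ℕ) (hn : 2 ≤ n) (hodd : Odd n) :
    riemannZeta (2 * n) / riemannZeta n ^ 2 * ((2 * n).choose n : ℂ) * ((G n : ℝ) : ℂ) ^ 2 =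
      8 * (2 ^ n - 1) ^ 2 * (bernoulli (2 * n) : ℂ) := by
  have hz0 : riemannZeta n ≠ 0 := riemannZeta_ne_zero_of_one_le_re (by simp; omega)
  have hG : ((G n : ℝ) : ℂ) = 4 * (n.factorial : ℂ) * (riemannZeta n * (1 - 1 / 2 ^ n)) /
      (π : ℂ) ^ n := by
    rw [lam_eq n hn]
    unfold G
    push_cast
    ring
  have h2 := riemannZeta_two_mul_nat (k := n) (by omega)
  have hsgn : ((-1 : ℂ)) ^ (n + 1) = 1 := Even.neg_one_pow (by
    rcases hodd with ⟨m, hm⟩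
    exact ⟨m + 1, by omega⟩)
  rw [hsgn, one_mul] at h2
  have hch : ((2 * n).choose n : ℂ) * (n.factorial : ℂ) ^ 2 = ((2 * n).factorial : ℂ) := by
    have := Nat.choose_mul_factorial_mul_factorial (n := 2 * n) (k := n) (by omega)
    rw [show 2 * n - n = n by omega] at this
    rw [← this]
    push_cast
    ring
  have hfac : ((2 * n).factorial : ℂ) ≠ 0 := by exact_mod_cast (Nat.factorial_pos _).ne'
  have hpi : (π : ℂ) ≠ 0 := by exact_mod_cast pi_ne_zero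
  have h2n : ((2:ℂ)) ^ (2 * n - 1) * 2 = 2 ^ n * 2 ^ n := by
    rw [← pow_succ, ← pow_add]
    congr 1
    omega
  have h2ne : ((2:ℂ)) ^ n ≠ 0 := pow_ne_zero _ two_ne_zero
  have e1 : riemannZeta (2 * n) / riemannZeta n ^ 2 * ((2 * n).choose n : ℂ) *
      ((G n : ℝ) : ℂ) ^ 2 = riemannZeta (2 * n) * (((2 * n).choose n : ℂ) *
        (n.factorial : ℂ) ^ 2) * 16 * (1 - 1 / 2 ^ n) ^ 2 / ((π : ℂ) ^ n) ^ 2 := by
    rw [hG]
    field_simp
    ring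
  rw [e1, hch, h2, show ((π : ℂ)) ^ (2 * n) = (π ^ n) ^ 2 by rw [← pow_mul, mul_comm n 2]]
  have e2 : (2:ℂ) ^ (2 * n - 1) = 2 ^ n * 2 ^ n / 2 := by rw [← h2n]; ring
  rw [e2]
  have hpin : ((π : ℂ)) ^ n ≠ 0 := pow_ne_zero _ hpi
  field_simp
  ring

/-- From the equation for `t(n)` to `M^n G n = δ k`. -/
lemma to_lattice (n M : ℕ) (hn : 2 ≤ n) (hodd : Odd n) (δ : ℝ) (k : ℤ)
    (h : riemannZeta (2 * n) / riemannZeta n ^ 2 * ((2 * n).choose n : ℂ) *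
      ((δ : ℂ) * k) ^ 2 = 2 * (bernoulli (2 * n) : ℂ) * (2 * (M : ℂ) ^ n * (2 ^ n - 1)) ^ 2) :
    ∃ k' : ℤ, (M : ℝ) ^ n * G n = δ * k' := by
  have hz0 : riemannZeta n ≠ 0 := riemannZeta_ne_zero_of_one_le_re (by simp; omega)
  have hz2 : riemannZeta (2 * n) ≠ 0 := riemannZeta_ne_zero_of_one_le_re (by
    simp
    have : (2:ℝ) ≤ n := by exact_mod_cast hn
    linarith)
  have hch : ((2 * n).choose n : ℂ) ≠ 0 := by
    exact_mod_cast (Nat.choose_pos (by omega : n ≤ 2 * n)).ne'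
  have hT : riemannZeta (2 * n) / riemannZeta n ^ 2 * ((2 * n).choose n : ℂ) ≠ 0 :=
    mul_ne_zero (div_ne_zero hz2 (pow_ne_zero _ hz0)) hch
  have hl := link n hn hodd
  have h1 : riemannZeta (2 * n) / riemannZeta n ^ 2 * ((2 * n).choose n : ℂ) *
      ((δ : ℂ) * k) ^ 2 = riemannZeta (2 * n) / riemannZeta n ^ 2 * ((2 * n).choose n : ℂ) *
      ((M : ℂ) ^ n * ((G n : ℝ) : ℂ)) ^ 2 := by
    rw [h, mul_pow ((M : ℂ) ^ n), mul_left_comm, hl]
    ring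
  have h2 := mul_left_cancel₀ hT h1
  have h3 : (δ * k) ^ 2 = ((M : ℝ) ^ n * G n) ^ 2 := by exact_mod_cast h2
  rcases sq_eq_sq_iff_eq_or_eq_neg.mp h3 with h4 | h4
  · exact ⟨k, h4.symm⟩
  · exact ⟨-k, by push_cast; linarith⟩

end Pool.Agent.Work.MP_f1a024_nt.OddG
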