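import Mathlib
import Pool.Agent.Work.MP_f1a024_nt.OddG.Conc

set_option autoImplicit false

/-!
The asymptotic form (helper89).
-/

namespace Pool.Agent.Work.MP_f1a024_nt.OddG

open Real Filter Topology

lemma tail (c Q K : ℝ) (m d : ℕ) (hc : 1 ≤ c) (hQ : c ^ m < Q) :
    ∃ r0 : ℕ, ∀ r : ℕ, r0 ≤ r → K * c ^ (m * r + d) < 27 * Q ^ r := by
  have hc0 : 0 < c := by linarith
  have hm0 : 0 < c ^ m := by positivity
  have hQ0 : 0 < Q := by linarith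
  have h1 : Tendsto (fun r : ℕ => (K * c ^ d) * (c ^ m / Q) ^ r) atTop (𝓝 ((K * c ^ d) * 0)) :=
    (tendsto_pow_atTop_nhds_zero_of_lt_one (by positivity) ((div_lt_one hQ0).mpr hQ)).const_mul _
  rw [mul_zero] at h1
  have h2 := h1.eventually_lt_const (by norm_num : (0:ℝ) < 27)
  obtain ⟨r0, hr0⟩ := eventually_atTop.mp h2
  refine ⟨r0, fun r hr => ?_⟩
  have h3 := hr0 r hr
  rw [div_pow, ← mul_div_assoc, div_lt_iff₀ (by positivity)] at h3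
  calc K * c ^ (m * r + d) = K * c ^ d * (c ^ m) ^ r := by rw [pow_add, pow_mul]; ring
    _ < 27 * Q ^ r := h3

/-- One case. -/
lemma one_case (M : ℕ) (c Q K : ℝ) (m : ℕ) (hm : 0 < m) (hm2 : m ≤ 20) (hc : 1 ≤ c)
    (hQ : c ^ m < Q)
    (hlat : ∀ (r : ℕ) (δ : ℝ), 0 < δ →
      (∀ n : ℕ, Odd n → 4 * r + 2 ≤ n → n ≤ m * r + 5 → ∃ k : ℤ, (M : ℝ) ^ n * G n = δ * k) →
      π ^ 3 * δ ≤ K * (1 / Q) ^ r) :
    ∃ N₀ : ℕ, ∀ N : ℕ, N₀ ≤ N → ∀ δ : ℝ, 1 ≤ δ * c ^ N →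
      ∃ n : ℕ, Odd n ∧ N ≤ 6 * n ∧ n ≤ N ∧ ∀ k : ℤ,
        riemannZeta (2 * n) / riemannZeta n ^ 2 * ((2 * n).choose n : ℂ) *
          ((δ : ℂ) * k) ^ 2 ≠
          2 * (bernoulli (2 * n) : ℂ) * (2 * (M : ℂ) ^ n * (2 ^ n - 1)) ^ 2 := by
  obtain ⟨r0, hr0⟩ := tail c Q K m (m + 5) hc hQ
  refine ⟨m * (r0 + 6) + 5, fun N hN δ hδ => ?_⟩
  have hc0 : 0 < c := by linarith
  have hm0 : 0 < c ^ m := by positivity
  have hQ0 : 0 < Q := by linarith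
  have hδ0 : 0 < δ := by
    have : 0 < c ^ N := by positivity
    by_contra hneg
    push Not at hneg
    nlinarith
  set r := (N - 5) / m with hr
  have hr1 : r0 + 6 ≤ r := by
    rw [hr, Nat.le_div_iff_mul_le hm]
    rw [mul_comm m] at hN
    omega
  have hr2 : m * r ≤ N - 5 := by rw [hr]; exact Nat.mul_div_le _ _
  have hr3 : N - 5 < m * r + m := by
    have := Nat.lt_mul_div_succ (N - 5) hm
    rw [← hr, mul_add, mul_one] at this
    exact this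
  have hN5 : 5 ≤ N := by
    have : 0 ≤ m * (r0 + 6) := Nat.zero_le _
    omega
  by_contra hcon
  push Not at hcon
  have hlat' := hlat r δ hδ0 (by
    intro n hodd h1 h2
    have h6 : N ≤ 6 * n := by
      have : m * r ≤ 20 * r := Nat.mul_le_mul_right _ hm2
      omega
    obtain ⟨k, hk⟩ := hcon n hodd h6 (by omega)
    exact to_lattice n M (by omega) hodd δ k hk)
  have h7 := hr0 r (by omega)
  have h8 : c ^ N ≤ c ^ (m * r + (m + 5)) := pow_le_pow_right₀ hc (by omega)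
  have hpi : (27:ℝ) < π ^ 3 := by
    have := pi_gt_three
    calc (27:ℝ) = 3 ^ 3 := by norm_num
      _ < π ^ 3 := pow_lt_pow_left₀ this (by norm_num) (by norm_num)
  have hQr : 0 < Q ^ r := by positivity
  rw [one_div, inv_pow, ← div_eq_mul_inv, le_div_iff₀ hQr] at hlat'
  have hK : 0 < K := by
    have : 0 < π ^ 3 * δ * Q ^ r := by positivity
    linarith
  have h9 : π ^ 3 * Q ^ r ≤ π ^ 3 * δ * Q ^ r * c ^ N := by
    have : 0 < π ^ 3 * Q ^ r := by positivity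
    nlinarith
  have h10 : π ^ 3 * δ * Q ^ r * c ^ N ≤ K * c ^ (m * r + (m + 5)) :=
    mul_le_mul hlat' h8 (by positivity) hK.le
  nlinarith

/-- Main theorem. -/
theorem main : ∃ N₀ : ℕ, ∀ N : ℕ, N₀ ≤ N → ∀ (M : ℕ) (c δ : ℝ),
    ((M = 1 ∧ c = 2.2) ∨ (M = 2 ∧ c = 1.49) ∨ (M = 3 ∧ c = 1.09)) → 1 ≤ δ * c ^ N →
      ∃ n : ℕ, Odd n ∧ N ≤ 6 * n ∧ n ≤ N ∧ ∀ k : ℤ,
        riemannZeta (2 * n) / riemannZeta n ^ 2 * ((2 * n).choose n : ℂ) *
          ((δ : ℂ) * k) ^ 2 ≠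
          2 * (bernoulli (2 * n) : ℂ) * (2 * (M : ℂ) ^ n * (2 ^ n - 1)) ^ 2 := by
  obtain ⟨N1, h1⟩ := one_case 1 2.2 3125 4 10 (by norm_num) (by norm_num) (by norm_num)
    (by norm_num) (fun r δ hδ h => lattice_1 r δ hδ h)
  obtain ⟨N2, h2⟩ := one_case 2 1.49 3125 128 20 (by norm_num) (by norm_num) (by norm_num)
    (by norm_num) (fun r δ hδ h => lattice_2 r δ hδ h)
  obtain ⟨N3, h3⟩ := one_case 3 1.09 (1048576 / 164025) 972 20 (by norm_num) (by norm_num)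
    (by norm_num) (by norm_num) (fun r δ hδ h => by
      have := lattice_3 r δ hδ h
      norm_num at this ⊢
      exact this)
  refine ⟨N1 + N2 + N3, fun N hN M c δ hMc hδ => ?_⟩
  rcases hMc with ⟨rfl, rfl⟩ | ⟨rfl, rfl⟩ | ⟨rfl, rfl⟩
  · exact h1 N (by omega) δ hδ
  · exact h2 N (by omega) δ hδ
  · exact h3 N (by omega) δ hδ

end Pool.Agent.Work.MP_f1a024_nt.OddG
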